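import Pool.Agent.UCP.Final

open MeasureTheory

/-- Let `K` be the Sierpinski carpet, `μ` a finite Borel measure on `K` of full support (for instance the
normalised Hausdorff measure) and `D` a strongly local regular Dirichlet form on `L²(K, μ)` whose
domain consists of continuous functions, which is self-similar (`f` is in the domain iff all
`f ∘ ψ_i` are, and `E(f,g) = ρ ∑ E(f ∘ ψ_i, g ∘ ψ_i)`) and invariant under the symmetries of the
square. Then the energy measure of every nonconstant function `h` which is harmonic off the boundary
`V0` of the unit square has full support. -/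
theorem Pool.Agent.Results.MP_eabe7c_an.FullSupport.result
    (μ : Measure CAR.carpet) [IsFiniteMeasure μ] [μ.IsOpenPosMeasure]
    (D : UCP.CarpetForm μ) (h : C(CAR.carpet, ℝ)) (hh : D.HarmonicOff CAR.V0 h)
    (hne : ∃ x y, h x ≠ h y) : D.FullSupport h := by
  refine UCP.full_support D hh ?_
  rintro ⟨c, hc⟩
  obtain ⟨x, y, hxy⟩ := hne
  exact hxy (by rw [hc x, hc y])
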