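import Pool.Agent.MP_eabe7c_an.Final

open MeasureTheory Set Topology Filter

/-- Let `D` be a strongly local regular Dirichlet form on `L²(K, μ)`, `K` the Sierpinski carpet,
`μ` a finite Borel measure of full support, such that the domain consists of continuous
functions. In the space of functions which are harmonic off the boundary `V0` of the unit
square, those whose energy measure has full support form a dense `Gδ` set, and this set contains
all nonconstant members of a dense linear subspace. -/
theorem Pool.Agent.Results.MP_eabe7c_an.Generic.result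
    (μ : Measure CAR.carpet) [IsFiniteMeasure μ] [μ.IsOpenPosMeasure]
    (D : CAR.DForm CAR.carpet μ) :
    ∃ W : Submodule ℝ C(CAR.carpet, ℝ),
      (∀ w ∈ W, D.HarmonicOff CAR.V0 w ∧ ((∃ x y, w x ≠ w y) → D.FullSupport w)) ∧
      (∀ h, D.HarmonicOff CAR.V0 h → ∀ ε > 0, ∃ w ∈ W, (∃ x y, w x ≠ w y) ∧
        D.E (h - w) (h - w) < ε ∧ ∀ x, |h x - w x| < ε) ∧
      ∃ O : ℕ → Set C(CAR.carpet, ℝ), (∀ n, IsOpen (O n)) ∧
        ∀ h, D.HarmonicOff CAR.V0 h → (D.FullSupport h ↔ ∀ n, h ∈ O n) :=
  CAR.generic D
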