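import Pool.Agent.MP_eabe7c_an.Final2

open MeasureTheory Set Topology Filter

/-- Let `D` be a strongly local regular Dirichlet form on `L²(K, μ)`, `K` the Sierpinski carpet,
`μ` a finite Borel measure of full support, with domain consisting of continuous functions. Let
`V ⊆ V0` be closed and let `h` be a nonconstant function harmonic off `V`. Either the energy
measure of `h` has full support, or `h` equals a constant `c` on some nonempty open set, where
`h - c` has infinitely many sign changes on `V` and on the boundary of every cell on which `h` is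
not identically `c` but whose interior meets the interior of `{h = c}`. -/
theorem Pool.Agent.Results.MP_eabe7c_an.SignChanges.result
    (μ : Measure CAR.carpet) [IsFiniteMeasure μ] [μ.IsOpenPosMeasure]
    (D : CAR.DForm CAR.carpet μ) (V : Set CAR.carpet) (hV : IsClosed V) (hV0 : V ⊆ CAR.V0)
    (h : C(CAR.carpet, ℝ)) (hh : D.HarmonicOff V h) (hne : ∃ x y, h x ≠ h y) :
    D.FullSupport h ∨
      ∃ c : ℝ, (interior {x | h x = c}).Nonempty ∧ ¬ CAR.FinSignChanges V h c ∧
        ∀ n i j, CAR.IsCell n i j →
          (∃ x ∈ interior {x : CAR.carpet | h x = c}, x.1 ∈ interior (CAR.sq n i j)) →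
          (∃ x : CAR.carpet, x.1 ∈ CAR.sq n i j ∧ h x ≠ c) →
          ¬ CAR.FinSignChanges {x : CAR.carpet | x.1 ∈ frontier (CAR.sq n i j)} h c :=
  CAR.dichotomy2 D hV hV0 hh hne
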